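import Mathlib

/-!
# Monotone sequential samplers on a finite product space

`Smp n M` : a sampler `S : (Fin n → Fin M) → Fin n → Bool` such that the bit at `v` is one exactly
if `U v < theta v (S U)`, where `theta v` depends on the bits before `v` only and is monotone.
-/

namespace SubBis

/-- A monotone sequential sampler with `M` levels. -/
structure Smp (n M : ℕ) where
  /-- the sampler -/
  S : (Fin n → Fin M) → Fin n → Bool
  /-- the thresholds -/
  theta : Fin n → (Fin n → Bool) → ℕ
  le : ∀ v τ, theta v τ ≤ M
  past : ∀ v τ τ', (∀ i, i < v → τ i = τ' i) → theta v τ = theta v τ'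
  mono : ∀ v, Monotone (theta v)
  spec : ∀ U v, S U v = true ↔ (U v : ℕ) < theta v (S U)

/-- The sampler of a family of thresholds. -/
def samp {n M : ℕ} (theta : Fin n → (Fin n → Bool) → ℕ) (U : Fin n → Fin M) (v : Fin n) : Bool :=
  decide ((U v : ℕ) < theta v (fun i => if _h : i < v then samp theta U i else false))
termination_by v

theorem samp_spec {n M : ℕ} (theta : Fin n → (Fin n → Bool) → ℕ)
    (past : ∀ v τ τ', (∀ i, i < v → τ i = τ' i) → theta v τ = theta v τ')
    (U : Fin n → Fin M) (v : Fin n) :
    samp theta U v = true ↔ (U v : ℕ) < theta v (samp theta U) := by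
  rw [samp, decide_eq_true_iff]
  rw [past v _ (samp theta U)]
  intro i hi
  simp [hi]

/-- The sampler built from thresholds. -/
def Smp.ofTheta {n M : ℕ} (theta : Fin n → (Fin n → Bool) → ℕ)
    (le : ∀ v τ, theta v τ ≤ M)
    (past : ∀ v τ τ', (∀ i, i < v → τ i = τ' i) → theta v τ = theta v τ')
    (mono : ∀ v, Monotone (theta v)) : Smp n M where
  S := samp theta
  theta := theta
  le := le
  past := past
  mono := mono
  spec := samp_spec theta past

namespace Smp

variable {n M : ℕ} (P : Smp n M)

theorem theta_le_of_past {v : Fin n} {τ τ' : Fin n → Bool} (h : ∀ i, i < v → τ i ≤ τ' i) :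
    P.theta v τ ≤ P.theta v τ' := by
  have h1 : P.theta v τ = P.theta v (fun i => if i < v then τ i else false) := by
    apply P.past
    intro i hi
    simp [hi]
  rw [h1]
  refine le_trans (P.mono v (a := _) (b := fun i => if i < v then τ' i else false) ?_) ?_
  · intro i
    by_cases hi : i < v
    · simpa [hi] using h i hi
    · simp [hi]
  · apply le_of_eq
    apply P.past
    intro i hi
    simp [hi]

/-- If two inputs agree up to `v`, so do the outputs. -/
theorem S_congr {U U' : Fin n → Fin M} {v : Fin n} (h : ∀ i, i ≤ v → U i = U' i) :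
    P.S U v = P.S U' v := by
  induction v using WellFoundedLT.induction with
  | _ v ih =>
    have h1 : P.theta v (P.S U) = P.theta v (P.S U') := by
      apply P.past
      intro i hi
      exact ih i hi (fun j hj => h j (hj.trans hi.le))
    have h2 := P.spec U v
    have h3 := P.spec U' v
    rw [h1, h v le_rfl, ← h3] at h2
    exact Bool.eq_iff_iff.mpr h2

/-- The sampler is antitone. -/
theorem S_anti {U U' : Fin n → Fin M} (h : U ≤ U') : P.S U' ≤ P.S U := by
  intro v
  induction v using WellFoundedLT.induction with
  | _ v ih =>
    have h1 : P.theta v (P.S U') ≤ P.theta v (P.S U) := P.theta_le_of_past (fun i hi => ih i hi)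
    have h2 := P.spec U v
    have h3 := P.spec U' v
    have h4 : (U v : ℕ) ≤ (U' v : ℕ) := h v
    cases hb : P.S U' v
    · exact Bool.false_le _
    · have h5 : (U' v : ℕ) < P.theta v (P.S U') := h3.mp hb
      have h6 : P.S U v = true := h2.mpr (by omega)
      rw [h6]

theorem S_eq_iff (U : Fin n → Fin M) (σ : Fin n → Bool) :
    P.S U = σ ↔ ∀ v, (σ v = true ↔ (U v : ℕ) < P.theta v σ) := by
  constructor
  · rintro rfl v
    exact P.spec U v
  · intro h
    funext v
    induction v using WellFoundedLT.induction with
    | _ v ih =>
      have h1 : P.theta v (P.S U) = P.theta v σ := P.past _ _ _ ih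
      have h2 := P.spec U v
      rw [h1, ← h v] at h2
      exact Bool.eq_iff_iff.mpr h2

/-- number of levels giving the bit `b` with threshold `t` -/
theorem card_level (b : Bool) (t : ℕ) (ht : t ≤ M) :
    (Finset.univ.filter (fun x : Fin M => (b = true ↔ (x : ℕ) < t))).card
      = if b then t else M - t := by
  have key : (Finset.univ.filter (fun x : Fin M => (x : ℕ) < t)).card = t := by
    have : (Finset.univ.filter (fun x : Fin M => (x : ℕ) < t)).card
        = (Finset.range t).card := by
      refine Finset.card_bij (fun x _ => (x : ℕ)) ?_ ?_ ?_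
      · intro x hx
        simpa using hx
      · intro x _ y _ h
        exact Fin.ext h
      · intro k hk
        have hk' : k < t := by simpa using hk
        exact ⟨⟨k, lt_of_lt_of_le hk' ht⟩, by simpa using hk', rfl⟩
    simpa using this
  cases b
  · have h2 : (Finset.univ.filter (fun x : Fin M => (false = true ↔ (x : ℕ) < t)))
        = (Finset.univ.filter (fun x : Fin M => ¬ ((x : ℕ) < t))) := by
      ext x; simp
    rw [h2]
    have h3 := Finset.card_filter_add_card_filter_not (s := (Finset.univ : Finset (Fin M)))
      (fun x : Fin M => (x : ℕ) < t)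
    rw [key] at h3
    have h4 : (Finset.univ : Finset (Fin M)).card = M := by simp
    rw [h4] at h3
    have h5 : (if false = true then t else M - t) = M - t := by simp
    rw [h5]
    omega
  · simpa using key

/-- The law of the sampler. -/
theorem card_S_eq (σ : Fin n → Bool) :
    (Finset.univ.filter (fun U : Fin n → Fin M => P.S U = σ)).card
      = ∏ v, (if σ v then P.theta v σ else M - P.theta v σ) := by
  have h1 : (Finset.univ.filter (fun U : Fin n → Fin M => P.S U = σ))
      = Fintype.piFinset (fun v => Finset.univ.filter
          (fun x : Fin M => (σ v = true ↔ (x : ℕ) < P.theta v σ))) := by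
    ext U
    simp [Fintype.mem_piFinset, P.S_eq_iff]
  rw [h1, Fintype.card_piFinset]
  refine Finset.prod_congr rfl (fun v _ => ?_)
  exact card_level _ _ (P.le v σ)

end Smp

end SubBis
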