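import Pool.Agent.Lib.SubBis.Core1

/-!
# Averages over a finite product space, resampling, hybrids, influences and covariances
-/

namespace SubBis

open Finset

/-- the real value of a bit -/
def bit (b : Bool) : ℝ := if b then 1 else 0

@[simp] theorem bit_true : bit true = 1 := rfl
@[simp] theorem bit_false : bit false = 0 := rfl

theorem bit_nonneg (b : Bool) : 0 ≤ bit b := by cases b <;> simp

theorem bit_le_one (b : Bool) : bit b ≤ 1 := by cases b <;> simp

theorem bit_mono {a b : Bool} (h : a ≤ b) : bit a ≤ bit b := by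
  revert h; cases a <;> cases b <;> simp

variable {n M : ℕ}

/-- the average over the uniform product space -/
noncomputable def ev (g : (Fin n → Fin M) → ℝ) : ℝ := (∑ U, g U) / (M : ℝ) ^ n

theorem pow_pos' (hM : 0 < M) : (0 : ℝ) < (M : ℝ) ^ n := pow_pos (by exact_mod_cast hM) n

theorem ev_const (hM : 0 < M) (c : ℝ) : ev (n := n) (M := M) (fun _ => c) = c := by
  have := pow_pos' (n := n) hM
  simp only [ev, Finset.sum_const, Finset.card_univ, Fintype.card_pi, Fintype.card_fin,
    Finset.prod_const, nsmul_eq_mul]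
  push_cast
  field_simp

theorem ev_add (g h : (Fin n → Fin M) → ℝ) : ev (fun U => g U + h U) = ev g + ev h := by
  simp [ev, Finset.sum_add_distrib, add_div]

theorem ev_sub (g h : (Fin n → Fin M) → ℝ) : ev (fun U => g U - h U) = ev g - ev h := by
  simp [ev, Finset.sum_sub_distrib, sub_div]

theorem ev_mul_left (c : ℝ) (g : (Fin n → Fin M) → ℝ) : ev (fun U => c * g U) = c * ev g := by
  simp [ev, ← Finset.mul_sum, mul_div_assoc]

theorem ev_sum {ι : Type*} (s : Finset ι) (g : ι → (Fin n → Fin M) → ℝ) :
    ev (fun U => ∑ i ∈ s, g i U) = ∑ i ∈ s, ev (g i) := by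
  simp only [ev]
  rw [Finset.sum_comm, Finset.sum_div]

theorem ev_mono {g h : (Fin n → Fin M) → ℝ} (H : ∀ U, g U ≤ h U) : ev g ≤ ev h := by
  unfold ev
  exact div_le_div_of_nonneg_right (Finset.sum_le_sum (fun U _ => H U)) (by positivity)

theorem ev_nonneg {g : (Fin n → Fin M) → ℝ} (H : ∀ U, 0 ≤ g U) : 0 ≤ ev g := by
  unfold ev
  exact div_nonneg (Finset.sum_nonneg (fun U _ => H U)) (by positivity)

theorem ev_comm (φ : (Fin n → Fin M) → (Fin n → Fin M) → ℝ) :
    ev (fun U => ev (fun V => φ U V)) = ev (fun V => ev (fun U => φ U V)) := by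
  simp only [ev]
  rw [← Finset.sum_div, ← Finset.sum_div, Finset.sum_comm]

/-- some point has at least the average -/
theorem exists_ge_ev (hM : 0 < M) (g : (Fin n → Fin M) → ℝ) : ∃ U, ev g ≤ g U := by
  by_contra hcon
  push Not at hcon
  have h1 : ∑ U, g U < ∑ _U : Fin n → Fin M, ev g := by
    have : Nonempty (Fin M) := ⟨⟨0, hM⟩⟩
    exact Finset.sum_lt_sum_of_nonempty Finset.univ_nonempty (fun U _ => hcon U)
  have h2 : ∑ _U : Fin n → Fin M, ev g = (M : ℝ) ^ n * ev g := by
    simp
  rw [h2] at h1
  have h3 := pow_pos' (n := n) hM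
  have h4 : (M : ℝ) ^ n * ev g = ∑ U, g U := by
    unfold ev
    field_simp
  linarith

/-- swapping the coordinates outside `B` -/
theorem ev2_piecewise (B : Finset (Fin n)) (φ : (Fin n → Fin M) → (Fin n → Fin M) → ℝ) :
    ev (fun U => ev (fun V => φ (B.piecewise U V) (B.piecewise V U)))
      = ev (fun U => ev (fun V => φ U V)) := by
  have key : ∑ U : Fin n → Fin M, ∑ V : Fin n → Fin M, φ (B.piecewise U V) (B.piecewise V U)
      = ∑ U : Fin n → Fin M, ∑ V : Fin n → Fin M, φ U V := by
    rw [← Finset.sum_product', ← Finset.sum_product']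
    refine Finset.sum_bij' (fun p _ => (B.piecewise p.1 p.2, B.piecewise p.2 p.1))
      (fun p _ => (B.piecewise p.1 p.2, B.piecewise p.2 p.1)) ?_ ?_ ?_ ?_ ?_
    · intro p _; simp
    · intro p _; simp
    · intro p _
      ext i <;> by_cases hi : i ∈ B <;> simp [Finset.piecewise, hi]
    · intro p _
      ext i <;> by_cases hi : i ∈ B <;> simp [Finset.piecewise, hi]
    · intro p _; rfl
  simp only [ev]
  rw [← Finset.sum_div, ← Finset.sum_div, key]

/-- the law of `piecewise B U V` is uniform -/
theorem ev2_piecewise_one (hM : 0 < M) (B : Finset (Fin n)) (g : (Fin n → Fin M) → ℝ) :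
    ev (fun U => ev (fun V => g (B.piecewise U V))) = ev g := by
  have h := ev2_piecewise (M := M) B (fun U _ => g U)
  rw [h]
  congr 1
  funext U
  exact ev_const hM _

/-- resampling one coordinate, sum form -/
theorem sum_update (u : Fin n) (g : (Fin n → Fin M) → ℝ) :
    ∑ U : Fin n → Fin M, ∑ x : Fin M, g (Function.update U u x) = M * ∑ U, g U := by
  have key : ∑ U : Fin n → Fin M, ∑ x : Fin M, g (Function.update U u x)
      = ∑ U : Fin n → Fin M, ∑ _x : Fin M, g U := by
    rw [← Finset.sum_product', ← Finset.sum_product']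
    refine Finset.sum_bij' (fun p _ => (Function.update p.1 u p.2, p.1 u))
      (fun p _ => (Function.update p.1 u p.2, p.1 u)) ?_ ?_ ?_ ?_ ?_
    · intro p _; simp
    · intro p _; simp
    · intro p _; simp
    · intro p _; simp
    · intro p _; rfl
  rw [key]
  simp [Finset.mul_sum]

/-- average of a function of one coordinate -/
theorem ev_coord (hM : 0 < M) (u : Fin n) (ψ : Fin M → ℝ) :
    ev (fun V : Fin n → Fin M => ψ (V u)) = (∑ y, ψ y) / M := by
  have h := sum_update (M := M) u (fun V => ψ (V u))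
  simp only [Function.update_self, Finset.sum_const, Finset.card_univ, Fintype.card_pi,
    Fintype.card_fin, Finset.prod_const, nsmul_eq_mul] at h
  have hM' : (0 : ℝ) < M := by exact_mod_cast hM
  have h3 := pow_pos' (n := n) hM
  unfold ev
  rw [div_eq_div_iff h3.ne' hM'.ne']
  push_cast at h
  linarith

/-- Harris' inequality on the uniform product space -/
theorem harris (hM : 0 < M) (f g : (Fin n → Fin M) → ℝ) (hf0 : ∀ U, 0 ≤ f U) (hg0 : ∀ U, 0 ≤ g U)
    (hf : Monotone f) (hg : Monotone g) : ev f * ev g ≤ ev (fun U => f U * g U) := by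
  have h := fkg f g (fun _ : Fin n → Fin M => (1 : ℝ))
    (fun _ => zero_le_one) hf0 hg0 hf hg (fun _ _ => le_rfl)
  have h3 := pow_pos' (n := n) hM
  simp only [one_mul, Finset.sum_const, Finset.card_univ, Fintype.card_pi, Fintype.card_fin,
    Finset.prod_const, nsmul_eq_mul, mul_one] at h
  push_cast at h
  unfold ev
  rw [div_mul_div_comm, div_le_div_iff₀ (by positivity) h3]
  nlinarith [h, h3]

/-- Harris for antitone functions with values in `[0,1]` -/
theorem harris_anti (hM : 0 < M) (f g : (Fin n → Fin M) → ℝ) (hf1 : ∀ U, f U ≤ 1)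
    (hg1 : ∀ U, g U ≤ 1) (hf : Antitone f) (hg : Antitone g) :
    ev f * ev g ≤ ev (fun U => f U * g U) := by
  have h := harris hM (fun U => 1 - f U) (fun U => 1 - g U) (fun U => by linarith [hf1 U])
    (fun U => by linarith [hg1 U]) (fun U V hUV => by have := hf hUV; simp only; linarith)
    (fun U V hUV => by have := hg hUV; simp only; linarith)
  have e1 : ev (fun U => 1 - f U) = 1 - ev f := by
    rw [ev_sub, ev_const hM]
  have e2 : ev (fun U => 1 - g U) = 1 - ev g := by
    rw [ev_sub, ev_const hM]
  have e3 : ev (fun U => (1 - f U) * (1 - g U)) = 1 - ev f - ev g + ev (fun U => f U * g U) := by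
    have : (fun U => (1 - f U) * (1 - g U)) = fun U => ((1 - f U) - g U) + f U * g U := by
      funext U; ring
    rw [this, ev_add, ev_sub, ev_sub, ev_const hM]
  rw [e1, e2, e3] at h
  nlinarith [h]

end SubBis
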