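import Pool.Agent.Lib.SubBis.Core2

/-!
# Influences are bounded by covariances; the hybrid bound
-/

namespace SubBis

open Finset

variable {n M : ℕ}

/-- the average over the coordinate `u` -/
noncomputable def cnd (u : Fin n) (g : (Fin n → Fin M) → ℝ) (U : Fin n → Fin M) : ℝ :=
  (∑ x, g (Function.update U u x)) / M

theorem ev_cnd (hM : 0 < M) (u : Fin n) (g : (Fin n → Fin M) → ℝ) : ev (cnd u g) = ev g := by
  have hM' : (M : ℝ) ≠ 0 := by exact_mod_cast hM.ne'
  unfold ev cnd
  rw [← Finset.sum_div, sum_update]
  field_simp

theorem cnd_update (u : Fin n) (g : (Fin n → Fin M) → ℝ) (U : Fin n → Fin M) (x : Fin M) :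
    cnd u g (Function.update U u x) = cnd u g U := by
  unfold cnd
  simp

theorem cnd_mul_cnd (u : Fin n) (f g : (Fin n → Fin M) → ℝ) :
    cnd u (fun U => f U * cnd u g U) = fun U => cnd u f U * cnd u g U := by
  funext U
  have : ∀ x, f (Function.update U u x) * cnd u g (Function.update U u x)
      = f (Function.update U u x) * cnd u g U := fun x => by rw [cnd_update]
  have h2 : cnd u (fun U => f U * cnd u g U) U
      = (∑ x, f (Function.update U u x) * cnd u g U) / M := by
    unfold cnd at this ⊢
    rw [Finset.sum_congr rfl (fun x _ => this x)]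
  rw [h2, ← Finset.sum_mul]
  unfold cnd
  ring

theorem ev2_update (hM : 0 < M) (u : Fin n) (f g : (Fin n → Fin M) → ℝ) :
    ev (fun U => ev (fun V => f U * g (Function.update U u (V u))))
      = ev (fun U => cnd u f U * cnd u g U) := by
  have h1 : (fun U => ev (fun V => f U * g (Function.update U u (V u))))
      = fun U => f U * cnd u g U := by
    funext U
    rw [ev_coord hM u (fun y => f U * g (Function.update U u y)), ← Finset.mul_sum]
    unfold cnd
    ring
  rw [h1, ← ev_cnd hM u, cnd_mul_cnd]

theorem ev2_update_one (hM : 0 < M) (u : Fin n) (g : (Fin n → Fin M) → ℝ) :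
    ev (fun U => ev (fun V => g (Function.update U u (V u)))) = ev g := by
  have h := ev2_update hM u (fun _ => 1) g
  simp only [one_mul] at h
  rw [h]
  have h2 : cnd (M := M) u (fun _ => (1 : ℝ)) = fun _ => 1 := by
    funext U
    have hM' : (M : ℝ) ≠ 0 := by exact_mod_cast hM.ne'
    unfold cnd
    simp [hM']
  rw [h2]
  simp only [one_mul]
  exact ev_cnd hM u g

theorem cnd_anti (u : Fin n) {g : (Fin n → Fin M) → ℝ} (hg : Antitone g) : Antitone (cnd u g) := by
  intro U V h
  unfold cnd
  refine div_le_div_of_nonneg_right (Finset.sum_le_sum (fun x _ => hg ?_)) (by positivity)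
  intro i
  by_cases hi : i = u
  · subst hi; simp
  · simpa [Function.update_of_ne hi] using h i

theorem cnd_le_one (hM : 0 < M) (u : Fin n) {g : (Fin n → Fin M) → ℝ} (hg : ∀ U, g U ≤ 1)
    (U : Fin n → Fin M) : cnd u g U ≤ 1 := by
  have hM' : (0 : ℝ) < M := by exact_mod_cast hM
  unfold cnd
  rw [div_le_one hM']
  calc ∑ x, g (Function.update U u x) ≤ ∑ _x : Fin M, (1 : ℝ) :=
        Finset.sum_le_sum (fun x _ => hg _)
    _ = M := by simp

/-- resampled product versus product of the means -/
theorem ev_mul_le_ev2_update (hM : 0 < M) (u : Fin n) (f g : (Fin n → Fin M) → ℝ)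
    (hf1 : ∀ U, f U ≤ 1) (hg1 : ∀ U, g U ≤ 1) (hf : Antitone f) (hg : Antitone g) :
    ev f * ev g ≤ ev (fun U => ev (fun V => f U * g (Function.update U u (V u)))) := by
  rw [ev2_update hM]
  have h := harris_anti hM (cnd u f) (cnd u g) (cnd_le_one hM u hf1) (cnd_le_one hM u hg1)
    (cnd_anti u hf) (cnd_anti u hg)
  rwa [ev_cnd hM, ev_cnd hM] at h

namespace Smp

variable (P : Smp n M)

/-- the real bit of the sampler -/
noncomputable def s (v : Fin n) (U : Fin n → Fin M) : ℝ := bit (P.S U v)

theorem s_anti (v : Fin n) : Antitone (P.s v) := fun _ _ h => bit_mono (P.S_anti h v)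

theorem s_le_one (v : Fin n) (U : Fin n → Fin M) : P.s v U ≤ 1 := bit_le_one _

theorem s_nonneg (v : Fin n) (U : Fin n → Fin M) : 0 ≤ P.s v U := bit_nonneg _

/-- covariance of two sites -/
noncomputable def cov (u b : Fin n) : ℝ :=
  ev (fun U => P.s u U * P.s b U) - ev (P.s u) * ev (P.s b)

/-- If the bit at `u` does not change, nothing changes. -/
theorem S_update_eq {U : Fin n → Fin M} {u : Fin n} {y : Fin M}
    (h : P.S U u = P.S (Function.update U u y) u) : P.S (Function.update U u y) = P.S U := by
  rw [P.S_eq_iff]
  intro v
  by_cases hv : v = u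
  · subst hv
    have h1 : P.theta v (P.S (Function.update U v y)) = P.theta v (P.S U) := by
      apply P.past
      intro i hi
      apply P.S_congr
      intro j hj
      have : j ≠ v := (lt_of_le_of_lt hj hi).ne
      simp [this]
    have h2 := P.spec (Function.update U v y) v
    rw [h1] at h2
    rw [h]
    exact h2
  · have := P.spec U v
    simpa [Function.update_of_ne hv] using this

theorem diff_le (u b : Fin n) (U : Fin n → Fin M) (y : Fin M) :
    (if P.S U b = P.S (Function.update U u y) b then (0 : ℝ) else 1)
      ≤ (P.s u U - P.s u (Function.update U u y)) * (P.s b U - P.s b (Function.update U u y)) := by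
  by_cases h : P.S U u = P.S (Function.update U u y) u
  · have h1 := P.S_update_eq h
    simp [s, h1]
  · unfold s
    rcases le_total y (U u) with hy | hy
    · have hle : Function.update U u y ≤ U := by
        intro i
        by_cases hi : i = u
        · subst hi; simpa using hy
        · simp [Function.update_of_ne hi]
      have h2 := P.S_anti hle
      have hu := h2 u
      have hb := h2 b
      revert h hu hb
      cases P.S U u <;> cases P.S (Function.update U u y) u <;> cases P.S U b <;>
        cases P.S (Function.update U u y) b <;> simp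
    · have hle : U ≤ Function.update U u y := by
        intro i
        by_cases hi : i = u
        · subst hi; simpa using hy
        · simp [Function.update_of_ne hi]
      have h2 := P.S_anti hle
      have hu := h2 u
      have hb := h2 b
      revert h hu hb
      cases P.S U u <;> cases P.S (Function.update U u y) u <;> cases P.S U b <;>
        cases P.S (Function.update U u y) b <;> simp

/-- influence of the coordinate `u` on the bit `b` -/
noncomputable def infl (u b : Fin n) : ℝ :=
  ev (fun U => ev (fun V : Fin n → Fin M =>
    if P.S U b = P.S (Function.update U u (V u)) b then (0 : ℝ) else 1))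

theorem infl_le (hM : 0 < M) (u b : Fin n) : P.infl u b ≤ 2 * P.cov u b := by
  have h1 : P.infl u b ≤ ev (fun U => ev (fun V : Fin n → Fin M =>
      (P.s u U - P.s u (Function.update U u (V u)))
        * (P.s b U - P.s b (Function.update U u (V u))))) := by
    unfold infl
    exact ev_mono (fun U => ev_mono (fun V => P.diff_le u b U (V u)))
  have h2 : ev (fun U => ev (fun V : Fin n → Fin M =>
      (P.s u U - P.s u (Function.update U u (V u)))
        * (P.s b U - P.s b (Function.update U u (V u)))))
      = ev (fun U => P.s u U * P.s b U) + ev (fun U => P.s u U * P.s b U)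
        - ev (fun U => ev (fun V : Fin n → Fin M => P.s u U * P.s b (Function.update U u (V u))))
        - ev (fun U => ev (fun V : Fin n → Fin M =>
            P.s b U * P.s u (Function.update U u (V u)))) := by
    have e1 : (fun U => ev (fun V : Fin n → Fin M =>
      (P.s u U - P.s u (Function.update U u (V u)))
        * (P.s b U - P.s b (Function.update U u (V u)))))
        = fun U => ((ev (fun V : Fin n → Fin M => P.s u U * P.s b U)
          + ev (fun V : Fin n → Fin M => P.s u (Function.update U u (V u))
              * P.s b (Function.update U u (V u))))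
          - ev (fun V : Fin n → Fin M => P.s u U * P.s b (Function.update U u (V u))))
          - ev (fun V : Fin n → Fin M => P.s b U * P.s u (Function.update U u (V u))) := by
      funext U
      rw [← ev_add, ← ev_sub, ← ev_sub]
      congr 1
      funext V
      ring
    rw [e1, ev_sub, ev_sub, ev_add]
    have e2 : ev (fun U => ev (fun V : Fin n → Fin M => P.s u (Function.update U u (V u))
              * P.s b (Function.update U u (V u)))) = ev (fun U => P.s u U * P.s b U) :=
      ev2_update_one hM u (fun U => P.s u U * P.s b U)
    have e3 : ev (fun U => ev (fun _V : Fin n → Fin M => P.s u U * P.s b U))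
        = ev (fun U => P.s u U * P.s b U) := by
      congr 1
      funext U
      exact ev_const hM _
    rw [e2, e3]
  have h3 := ev_mul_le_ev2_update hM u (P.s u) (P.s b) (P.s_le_one u) (P.s_le_one b)
    (P.s_anti u) (P.s_anti b)
  have h4 := ev_mul_le_ev2_update hM u (P.s b) (P.s u) (P.s_le_one b) (P.s_le_one u)
    (P.s_anti b) (P.s_anti u)
  unfold cov
  rw [h2] at h1
  have h5 : ev (P.s b) * ev (P.s u) = ev (P.s u) * ev (P.s b) := mul_comm _ _
  linarith

theorem infl_nonneg (u b : Fin n) : 0 ≤ P.infl u b := by
  unfold infl
  refine ev_nonneg (fun U => ev_nonneg (fun V => ?_))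
  split_ifs <;> simp

theorem cov_nonneg (hM : 0 < M) (u b : Fin n) : 0 ≤ P.cov u b := by
  have h := P.infl_le hM u b
  have h2 := P.infl_nonneg u b
  linarith

/-- probability that the bit at `b` differs when the outside of `A`, resp. `B`, is resampled -/
noncomputable def dif (A B : Finset (Fin n)) (b : Fin n) : ℝ :=
  ev (fun U => ev (fun V : Fin n → Fin M =>
    if P.S (A.piecewise U V) b = P.S (B.piecewise U V) b then (0 : ℝ) else 1))

theorem dif_insert (A : Finset (Fin n)) (u b : Fin n) (hu : u ∉ A) :
    P.dif A (insert u A) b = P.infl u b := by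
  have h := ev2_piecewise (M := M) A (fun P' Q =>
    if P.S P' b = P.S (Function.update P' u (Q u)) b then (0 : ℝ) else 1)
  unfold infl dif
  rw [← h]
  congr 1
  funext U
  congr 1
  funext V
  have e1 : (A.piecewise V U) u = U u := by simp [Finset.piecewise, hu]
  have e2 : (insert u A).piecewise U V = Function.update (A.piecewise U V) u (U u) := by
    rw [Finset.piecewise_insert]
  rw [e1, e2]

theorem dif_comm (A B : Finset (Fin n)) (b : Fin n) : P.dif A B b = P.dif B A b := by
  unfold dif
  congr 1
  funext U
  congr 1
  funext V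
  simp only [eq_comm]

theorem dif_triangle (A B C : Finset (Fin n)) (b : Fin n) :
    P.dif A C b ≤ P.dif A B b + P.dif B C b := by
  unfold dif
  rw [← ev_add]
  refine ev_mono (fun U => ?_)
  rw [← ev_add]
  refine ev_mono (fun V => ?_)
  cases P.S (A.piecewise U V) b <;> cases P.S (B.piecewise U V) b <;>
    cases P.S (C.piecewise U V) b <;> simp

theorem dif_self (A : Finset (Fin n)) (b : Fin n) : P.dif A A b = 0 := by
  unfold dif
  simp [ev]

theorem dif_union (A D : Finset (Fin n)) (b : Fin n) (hD : Disjoint A D) :
    P.dif A (A ∪ D) b ≤ ∑ u ∈ D, P.infl u b := by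
  classical
  induction D using Finset.induction_on with
  | empty => simp [P.dif_self]
  | insert u D hu ih =>
    have hd : Disjoint A D := hD.mono_right (Finset.subset_insert _ _)
    have huA : u ∉ A := fun h => (Finset.disjoint_left.mp hD h) (Finset.mem_insert_self _ _)
    have h1 := ih hd
    have h2 : A ∪ insert u D = insert u (A ∪ D) := by
      ext x; simp
    have h3 := P.dif_triangle A (A ∪ D) (insert u (A ∪ D)) b
    have h4 := P.dif_insert (A ∪ D) u b (by simp [huA, hu])
    rw [h2, Finset.sum_insert hu]
    linarith

/-- The hybrid bound. -/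
theorem dif_le (A B : Finset (Fin n)) (b : Fin n) :
    P.dif A B b ≤ ∑ u ∈ (A \ B) ∪ (B \ A), P.infl u b := by
  classical
  have h1 := P.dif_triangle A (A ∩ B) B b
  have h2 := P.dif_union (A ∩ B) (A \ B) b (by
    rw [Finset.disjoint_left]; intro x hx hx'; simp at hx hx'; exact hx'.2 hx.2)
  have h3 := P.dif_union (A ∩ B) (B \ A) b (by
    rw [Finset.disjoint_left]; intro x hx hx'; simp at hx hx'; exact hx'.2 hx.1)
  have e2 : A ∩ B ∪ A \ B = A := by ext x; simp; tauto
  have e3 : A ∩ B ∪ B \ A = B := by ext x; simp; tauto
  rw [e2] at h2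
  rw [e3] at h3
  rw [P.dif_comm] at h2
  rw [Finset.sum_union (by
    rw [Finset.disjoint_left]; intro x hx hx'; simp at hx hx'; exact hx'.2 hx.1)]
  linarith

end Smp

end SubBis
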