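import Mathlib

/-!
# One-site entropy lemmas for the adapted-family bound (MP_a7c826_lc)

`dd m u = log2 ((m-u)/(u+1))`, partial sums `log2 (choose m k)`; the integer approximation
`ee m c u = log 2 ((m-u)^c) - log 2 ((u+1)^c)` with `|ee - c * dd| ≤ 1`.
-/

namespace SubBis

open Finset

/-- the increments of `log2 (choose m k)` -/
noncomputable def dd (m u : ℕ) : ℝ := Real.logb 2 (((m - u : ℕ) : ℝ) / ((u + 1 : ℕ) : ℝ))

/-- the integer increments -/
def ee (m c u : ℕ) : ℤ := (Nat.log 2 ((m - u) ^ c) : ℤ) - (Nat.log 2 ((u + 1) ^ c) : ℤ)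

theorem dd_eq {m u : ℕ} (hu : u < m) :
    dd m u = Real.logb 2 ((m - u : ℕ) : ℝ) - Real.logb 2 ((u + 1 : ℕ) : ℝ) := by
  unfold dd
  rw [Real.logb_div]
  · have : 0 < m - u := by omega
    positivity
  · positivity

theorem sum_dd {m k : ℕ} (hk : k ≤ m) :
    ∑ u ∈ range k, dd m u = Real.logb 2 (Nat.choose m k : ℝ) := by
  induction k with
  | zero => simp
  | succ k ih =>
    rw [Finset.sum_range_succ, ih (by omega)]
    have h1 : (Nat.choose m (k + 1) : ℝ) * ((k + 1 : ℕ) : ℝ)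
        = (Nat.choose m k : ℝ) * ((m - k : ℕ) : ℝ) := by
      exact_mod_cast Nat.choose_succ_right_eq m k
    have h2 : (0 : ℝ) < ((k + 1 : ℕ) : ℝ) := by positivity
    have h3 : (Nat.choose m (k + 1) : ℝ)
        = (Nat.choose m k : ℝ) * (((m - k : ℕ) : ℝ) / ((k + 1 : ℕ) : ℝ)) := by
      rw [← mul_div_assoc, eq_div_iff h2.ne']
      exact h1
    have h4 : 0 < m - k := by omega
    have h5 : 0 < Nat.choose m k := Nat.choose_pos (by omega)
    rw [h3, Real.logb_mul (by positivity) (by positivity)]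
    rfl

theorem dd_anti {m u v : ℕ} (huv : u ≤ v) (hv : v < m) : dd m v ≤ dd m u := by
  unfold dd
  have h0 : 0 < m - v := by omega
  apply Real.logb_le_logb_of_le (by norm_num) (by positivity)
  apply div_le_div₀ (by positivity)
  · exact_mod_cast (by omega : m - v ≤ m - u)
  · positivity
  · exact_mod_cast (by omega : u + 1 ≤ v + 1)

/-- `∑ q_u (dd_u + t) ≤` some initial segment. -/
theorem exists_initial (m : ℕ) (t : ℝ) :
    ∃ k ≤ m, ∀ q : ℕ → ℝ, (∀ u < m, 0 ≤ q u ∧ q u ≤ 1) →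
      ∑ u ∈ range m, q u * (dd m u + t) ≤ ∑ u ∈ range k, (dd m u + t) := by
  classical
  have hex : ∃ k, m ≤ k ∨ dd m k + t ≤ 0 := ⟨m, Or.inl le_rfl⟩
  refine ⟨Nat.find hex, Nat.find_min' hex (Or.inl le_rfl), fun q hq => ?_⟩
  set k := Nat.find hex with hkdef
  have hkm : k ≤ m := Nat.find_min' hex (Or.inl le_rfl)
  have hlt : ∀ u < k, 0 < dd m u + t := by
    intro u hu
    have := Nat.find_min hex hu
    push Not at this
    exact this.2
  have hge : ∀ u, k ≤ u → u < m → dd m u + t ≤ 0 := by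
    intro u hku hum
    have h1 : m ≤ k ∨ dd m k + t ≤ 0 := Nat.find_spec hex
    rcases h1 with h1 | h1
    · omega
    · have := dd_anti hku hum
      linarith
  have hsplit : range m = range k ∪ (range m \ range k) := by
    ext x; simp; omega
  rw [hsplit, Finset.sum_union Finset.disjoint_sdiff]
  have h1 : ∑ u ∈ range k, q u * (dd m u + t) ≤ ∑ u ∈ range k, (dd m u + t) := by
    apply Finset.sum_le_sum
    intro u hu
    have hu' : u < k := by simpa using hu
    have := hlt u hu'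
    nlinarith [(hq u (by omega)).2]
  have h2 : ∑ u ∈ range m \ range k, q u * (dd m u + t) ≤ 0 := by
    apply Finset.sum_nonpos
    intro u hu
    have hu' : u < m ∧ k ≤ u := by simpa using hu
    have := hge u hu'.2 hu'.1
    nlinarith [(hq u hu'.1).1]
  linarith

theorem term_le_pow {x y : ℝ} (hx : 0 < x) (hy : 0 < y) {m k : ℕ} (hk : k ≤ m) :
    (Nat.choose m k : ℝ) * (x ^ k * y ^ (m - k)) ≤ (x + y) ^ m := by
  rw [add_pow]
  have h := Finset.single_le_sum (f := fun j => x ^ j * y ^ (m - j) * (Nat.choose m j : ℝ))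
    (s := range (m + 1)) (fun j _ => by positivity) (a := k) (by simp; omega)
  calc (Nat.choose m k : ℝ) * (x ^ k * y ^ (m - k))
      = x ^ k * y ^ (m - k) * (Nat.choose m k : ℝ) := by ring
    _ ≤ _ := h

theorem exists_term_ge {x y : ℝ} (hx : 0 < x) (hy : 0 < y) (m : ℕ) :
    ∃ k ≤ m, (x + y) ^ m ≤ ((m : ℝ) + 1) * ((Nat.choose m k : ℝ) * (x ^ k * y ^ (m - k))) := by
  by_contra hcon
  push Not at hcon
  have h1 : ∀ k ∈ range (m + 1), x ^ k * y ^ (m - k) * (Nat.choose m k : ℝ)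
      < (x + y) ^ m / ((m : ℝ) + 1) := by
    intro k hk
    have hk' : k ≤ m := by simp at hk; omega
    have := hcon k hk'
    rw [lt_div_iff₀ (by positivity)]
    calc x ^ k * y ^ (m - k) * (Nat.choose m k : ℝ) * ((m : ℝ) + 1)
        = ((m : ℝ) + 1) * ((Nat.choose m k : ℝ) * (x ^ k * y ^ (m - k))) := by ring
      _ < _ := this
  have h2 := Finset.sum_lt_sum_of_nonempty (s := range (m + 1)) ⟨0, by simp⟩ h1
  rw [← add_pow] at h2
  simp only [Finset.sum_const, Finset.card_range, nsmul_eq_mul] at h2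
  push_cast at h2
  have h3 : ((m : ℝ) + 1) * ((x + y) ^ m / ((m : ℝ) + 1)) = (x + y) ^ m := by
    field_simp
  linarith

/-- logarithm of one binomial term -/
theorem logb_term {A B : ℝ} {m k : ℕ} (hk : k ≤ m) :
    Real.logb 2 ((Nat.choose m k : ℝ) * (((2 : ℝ) ^ A) ^ k * ((2 : ℝ) ^ B) ^ (m - k)))
      = Real.logb 2 (Nat.choose m k : ℝ) + k * A + (m - k : ℕ) * B := by
  have h5 : 0 < Nat.choose m k := Nat.choose_pos hk
  have hA : (0 : ℝ) < (2 : ℝ) ^ A := Real.rpow_pos_of_pos (by norm_num) _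
  have hB : (0 : ℝ) < (2 : ℝ) ^ B := Real.rpow_pos_of_pos (by norm_num) _
  rw [Real.logb_mul (by positivity) (by positivity), Real.logb_mul (by positivity) (by positivity),
    Real.logb_pow, Real.logb_pow, Real.logb_rpow (by norm_num) (by norm_num),
    Real.logb_rpow (by norm_num) (by norm_num)]
  ring

/-- UPPER STEP, real increments. -/
theorem upper_dd {m : ℕ} (_hm : 0 < m) (q : ℕ → ℝ) (hq : ∀ u < m, 0 ≤ q u ∧ q u ≤ 1) (A B : ℝ) :
    ∑ u ∈ range m, (dd m u * q u + q u * A + (1 - q u) * B)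
      ≤ m * Real.logb 2 ((2 : ℝ) ^ A + (2 : ℝ) ^ B) := by
  obtain ⟨k, hk, hseg⟩ := exists_initial m (A - B)
  have h1 := hseg q hq
  have hA : (0 : ℝ) < (2 : ℝ) ^ A := Real.rpow_pos_of_pos (by norm_num) _
  have hB : (0 : ℝ) < (2 : ℝ) ^ B := Real.rpow_pos_of_pos (by norm_num) _
  have h2 : ∑ u ∈ range m, (dd m u * q u + q u * A + (1 - q u) * B)
      = ∑ u ∈ range m, q u * (dd m u + (A - B)) + m * B := by
    have : ∀ u ∈ range m, dd m u * q u + q u * A + (1 - q u) * B
        = q u * (dd m u + (A - B)) + B := fun u _ => by ring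
    rw [Finset.sum_congr rfl this, Finset.sum_add_distrib]
    simp
  have h3 : ∑ u ∈ range k, (dd m u + (A - B))
      = Real.logb 2 (Nat.choose m k : ℝ) + k * (A - B) := by
    rw [Finset.sum_add_distrib, sum_dd hk]
    simp
    ring
  have h4 := logb_term (A := A) (B := B) hk
  have h5 := term_le_pow hA hB hk
  have h6 : 0 < Nat.choose m k := Nat.choose_pos hk
  have h7 := Real.logb_le_logb_of_le (b := 2) (by norm_num) (by positivity) h5
  rw [h4, Real.logb_pow] at h7
  have h8 : ((m - k : ℕ) : ℝ) = (m : ℝ) - k := by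
    rw [Nat.cast_sub hk]
  rw [h8] at h7
  rw [h2]
  linarith

/-- LOWER STEP, real increments. -/
theorem lower_dd {m : ℕ} (_hm : 0 < m) (A B : ℝ) :
    ∃ k ≤ m, m * Real.logb 2 ((2 : ℝ) ^ A + (2 : ℝ) ^ B) - Real.logb 2 ((m : ℝ) + 1)
      ≤ ∑ u ∈ range m, (dd m u * (if u < k then 1 else 0) + (if u < k then 1 else 0) * A
        + (1 - (if u < k then 1 else 0)) * B) := by
  have hA : (0 : ℝ) < (2 : ℝ) ^ A := Real.rpow_pos_of_pos (by norm_num) _
  have hB : (0 : ℝ) < (2 : ℝ) ^ B := Real.rpow_pos_of_pos (by norm_num) _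
  obtain ⟨k, hk, h1⟩ := exists_term_ge hA hB m
  refine ⟨k, hk, ?_⟩
  have h6 : 0 < Nat.choose m k := Nat.choose_pos hk
  have h2 := Real.logb_le_logb_of_le (b := 2) (by norm_num) (by positivity) h1
  rw [Real.logb_pow, Real.logb_mul (by positivity) (by positivity), logb_term hk] at h2
  have h3 : ∑ u ∈ range m, (dd m u * (if u < k then (1 : ℝ) else 0) + (if u < k then (1 : ℝ) else 0) * A
        + (1 - (if u < k then (1 : ℝ) else 0)) * B)
      = ∑ u ∈ range m, (if u < k then dd m u + (A - B) else 0) + m * B := by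
    have : ∀ u ∈ range m, dd m u * (if u < k then (1 : ℝ) else 0) + (if u < k then (1 : ℝ) else 0) * A
        + (1 - (if u < k then (1 : ℝ) else 0)) * B
        = (if u < k then dd m u + (A - B) else 0) + B := by
      intro u _
      split_ifs <;> ring
    rw [Finset.sum_congr rfl this, Finset.sum_add_distrib]
    simp
  have h4 : ∑ u ∈ range m, (if u < k then dd m u + (A - B) else 0)
      = ∑ u ∈ range k, (dd m u + (A - B)) := by
    rw [← Finset.sum_filter]
    congr 1
    ext x; simp; omega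
  have h5 : ∑ u ∈ range k, (dd m u + (A - B))
      = Real.logb 2 (Nat.choose m k : ℝ) + k * (A - B) := by
    rw [Finset.sum_add_distrib, sum_dd hk]
    simp
    ring
  have h8 : ((m - k : ℕ) : ℝ) = (m : ℝ) - k := by
    rw [Nat.cast_sub hk]
  rw [h8] at h2
  rw [h3, h4, h5]
  linarith

theorem log_pow_le {p : ℕ} (hp : 0 < p) (c : ℕ) :
    (Nat.log 2 (p ^ c) : ℝ) ≤ c * Real.logb 2 (p : ℝ) := by
  have h1 : 2 ^ Nat.log 2 (p ^ c) ≤ p ^ c := Nat.pow_log_le_self 2 (by positivity)
  have h2 : ((2 : ℝ) ^ Nat.log 2 (p ^ c)) ≤ (p : ℝ) ^ c := by exact_mod_cast h1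
  have h3 := Real.logb_le_logb_of_le (b := 2) (by norm_num) (by positivity) h2
  rw [Real.logb_pow, Real.logb_pow, Real.logb_self_eq_one (by norm_num)] at h3
  linarith

theorem lt_log_pow {p : ℕ} (hp : 0 < p) (c : ℕ) :
    c * Real.logb 2 (p : ℝ) ≤ (Nat.log 2 (p ^ c) : ℝ) + 1 := by
  have h1 : p ^ c < 2 ^ (Nat.log 2 (p ^ c) + 1) := Nat.lt_pow_succ_log_self (by norm_num) _
  have h2 : (p : ℝ) ^ c ≤ ((2 : ℝ) ^ (Nat.log 2 (p ^ c) + 1)) := by exact_mod_cast h1.le
  have h3 := Real.logb_le_logb_of_le (b := 2) (by norm_num) (by positivity) h2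
  rw [Real.logb_pow, Real.logb_pow, Real.logb_self_eq_one (by norm_num)] at h3
  push_cast at h3
  linarith

theorem ee_le {m c u : ℕ} (hu : u < m) : (ee m c u : ℝ) ≤ c * dd m u + 1 := by
  have h1 := log_pow_le (p := m - u) (by omega) c
  have h2 := lt_log_pow (p := u + 1) (by omega) c
  rw [dd_eq hu]
  unfold ee
  push_cast at h1 h2 ⊢
  linarith

theorem le_ee {m c u : ℕ} (hu : u < m) : c * dd m u - 1 ≤ (ee m c u : ℝ) := by
  have h1 := lt_log_pow (p := m - u) (by omega) c
  have h2 := log_pow_le (p := u + 1) (by omega) c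
  rw [dd_eq hu]
  unfold ee
  push_cast at h1 h2 ⊢
  linarith

theorem ee_anti {m c u v : ℕ} (huv : u ≤ v) : ee m c v ≤ ee m c u := by
  unfold ee
  have h1 : Nat.log 2 ((m - v) ^ c) ≤ Nat.log 2 ((m - u) ^ c) :=
    Nat.log_mono_right (Nat.pow_le_pow_left (by omega) c)
  have h2 : Nat.log 2 ((u + 1) ^ c) ≤ Nat.log 2 ((v + 1) ^ c) :=
    Nat.log_mono_right (Nat.pow_le_pow_left (by omega) c)
  omega

theorem abs_ee_le {mu c u : ℕ} (hu : u < 2 ^ mu) : |ee (2 ^ mu) c u| ≤ c * mu := by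
  have h0 : ∀ p ≤ 2 ^ mu, Nat.log 2 (p ^ c) ≤ c * mu := by
    intro p hp
    calc Nat.log 2 (p ^ c) ≤ Nat.log 2 ((2 ^ mu) ^ c) :=
          Nat.log_mono_right (Nat.pow_le_pow_left hp c)
      _ = c * mu := by
          rw [← pow_mul, Nat.log_pow (by norm_num), mul_comm]
  have h1 := h0 (2 ^ mu - u) (by omega)
  have h2 := h0 (u + 1) (by omega)
  unfold ee
  rw [abs_le]
  constructor
  · have : (0 : ℤ) ≤ (Nat.log 2 ((2 ^ mu - u) ^ c) : ℤ) := by positivity
    have h3 : (Nat.log 2 ((u + 1) ^ c) : ℤ) ≤ ((c * mu : ℕ) : ℤ) := by exact_mod_cast h2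
    push_cast at h3 ⊢
    linarith
  · have : (0 : ℤ) ≤ (Nat.log 2 ((u + 1) ^ c) : ℤ) := by positivity
    have h3 : (Nat.log 2 ((2 ^ mu - u) ^ c) : ℤ) ≤ ((c * mu : ℕ) : ℤ) := by exact_mod_cast h1
    push_cast at h3 ⊢
    linarith

/-- UPPER STEP with the integer increments. -/
theorem upper_ee {m c : ℕ} (hm : 0 < m) (q : ℕ → ℝ) (hq : ∀ u < m, 0 ≤ q u ∧ q u ≤ 1)
    (A B : ℝ) :
    ∑ u ∈ range m, ((ee m c u : ℝ) * q u + c * (q u * A + (1 - q u) * B))
      ≤ m * (c * Real.logb 2 ((2 : ℝ) ^ A + (2 : ℝ) ^ B) + 1) := by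
  have h1 := upper_dd hm q hq A B
  have h2 : ∑ u ∈ range m, ((ee m c u : ℝ) * q u + c * (q u * A + (1 - q u) * B))
      ≤ ∑ u ∈ range m, (c * (dd m u * q u + q u * A + (1 - q u) * B) + 1) := by
    apply Finset.sum_le_sum
    intro u hu
    have hu' : u < m := by simpa using hu
    have h3 := ee_le (c := c) hu'
    obtain ⟨h4, h5⟩ := hq u hu'
    nlinarith
  have h6 : ∑ u ∈ range m, (c * (dd m u * q u + q u * A + (1 - q u) * B) + 1)
      = c * ∑ u ∈ range m, (dd m u * q u + q u * A + (1 - q u) * B) + m := by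
    rw [Finset.sum_add_distrib, ← Finset.mul_sum]
    simp
  rw [h6] at h2
  have h7 : (0 : ℝ) ≤ c := by positivity
  nlinarith

/-- LOWER STEP with the integer increments. -/
theorem lower_ee {m c : ℕ} (hm : 0 < m) (A B : ℝ) :
    ∃ k ≤ m, m * (c * Real.logb 2 ((2 : ℝ) ^ A + (2 : ℝ) ^ B) - 1)
        - c * Real.logb 2 ((m : ℝ) + 1)
      ≤ ∑ u ∈ range m, ((ee m c u : ℝ) * (if u < k then 1 else 0)
        + c * ((if u < k then 1 else 0) * A + (1 - (if u < k then 1 else 0)) * B)) := by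
  obtain ⟨k, hk, h1⟩ := lower_dd hm A B
  refine ⟨k, hk, ?_⟩
  have h2 : ∑ u ∈ range m, (c * (dd m u * (if u < k then (1 : ℝ) else 0)
        + (if u < k then 1 else 0) * A + (1 - (if u < k then 1 else 0)) * B) - 1)
      ≤ ∑ u ∈ range m, ((ee m c u : ℝ) * (if u < k then 1 else 0)
        + c * ((if u < k then 1 else 0) * A + (1 - (if u < k then 1 else 0)) * B)) := by
    apply Finset.sum_le_sum
    intro u hu
    have hu' : u < m := by simpa using hu
    have h3 := le_ee (c := c) hu'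
    split_ifs
    · linarith
    · linarith
  have h6 : ∑ u ∈ range m, (c * (dd m u * (if u < k then (1 : ℝ) else 0)
        + (if u < k then 1 else 0) * A + (1 - (if u < k then 1 else 0)) * B) - 1)
      = c * ∑ u ∈ range m, (dd m u * (if u < k then (1 : ℝ) else 0)
        + (if u < k then 1 else 0) * A + (1 - (if u < k then 1 else 0)) * B) - m := by
    rw [Finset.sum_sub_distrib, ← Finset.mul_sum]
    simp
  rw [h6] at h2
  have h7 : (0 : ℝ) ≤ c := by positivity
  nlinarith [mul_le_mul_of_nonneg_left h1 h7]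

/-- binary entropy in bits -/
noncomputable def h2 (p : ℝ) : ℝ := -(p * Real.logb 2 p) - (1 - p) * Real.logb 2 (1 - p)

/-- (E1) -/
theorem mean_dd_le {m : ℕ} (hm : 0 < m) (q : ℕ → ℝ) (hq : ∀ u < m, 0 ≤ q u ∧ q u ≤ 1) :
    (∑ u ∈ range m, dd m u * q u) / m ≤ h2 ((∑ u ∈ range m, q u) / m) := by
  have hm' : (0 : ℝ) < m := by exact_mod_cast hm
  set p : ℝ := (∑ u ∈ range m, q u) / m with hp
  have hsum : ∑ u ∈ range m, q u = m * p := by rw [hp]; field_simp
  have hp0 : 0 ≤ p := by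
    rw [hp]
    exact div_nonneg (Finset.sum_nonneg (fun u hu => (hq u (by simpa using hu)).1)) hm'.le
  have hp1 : p ≤ 1 := by
    rw [hp, div_le_one hm']
    calc ∑ u ∈ range m, q u ≤ ∑ _u ∈ range m, (1 : ℝ) :=
          Finset.sum_le_sum (fun u hu => (hq u (by simpa using hu)).2)
      _ = m := by simp
  rcases hp0.eq_or_lt with h0 | h0
  · -- all q vanish
    have hz : ∀ u ∈ range m, q u = 0 := by
      have h1 : ∑ u ∈ range m, q u = 0 := by rw [hsum, ← h0, mul_zero]
      exact (Finset.sum_eq_zero_iff_of_nonneg (fun u hu => (hq u (by simpa using hu)).1)).mp h1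
    have h1 : ∑ u ∈ range m, dd m u * q u = 0 :=
      Finset.sum_eq_zero (fun u hu => by rw [hz u hu, mul_zero])
    rw [h1, ← h0]
    simp [h2]
  · rcases hp1.eq_or_lt with h1' | h1'
    · have hz : ∀ u ∈ range m, 1 - q u = 0 := by
        have h1 : ∑ u ∈ range m, (1 - q u) = 0 := by
          rw [Finset.sum_sub_distrib, hsum, h1']
          simp
        exact (Finset.sum_eq_zero_iff_of_nonneg
          (fun u hu => by linarith [(hq u (by simpa using hu)).2])).mp h1
      have h1 : ∑ u ∈ range m, dd m u * q u = ∑ u ∈ range m, dd m u :=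
        Finset.sum_congr rfl (fun u hu => by
          have : q u = 1 := by linarith [hz u hu]
          rw [this, mul_one])
      rw [h1, sum_dd le_rfl, h1']
      simp [h2]
    · have hup := upper_dd hm q hq (Real.logb 2 p) (Real.logb 2 (1 - p))
      rw [Real.rpow_logb (by norm_num) (by norm_num) h0,
        Real.rpow_logb (by norm_num) (by norm_num) (by linarith)] at hup
      have h3 : Real.logb 2 (p + (1 - p)) = 0 := by
        rw [add_sub_cancel, Real.logb_one]
      rw [h3, mul_zero] at hup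
      have h4 : ∑ u ∈ range m, (dd m u * q u + q u * Real.logb 2 p
          + (1 - q u) * Real.logb 2 (1 - p))
          = ∑ u ∈ range m, dd m u * q u + (m * p) * Real.logb 2 p
            + (m - m * p) * Real.logb 2 (1 - p) := by
        rw [Finset.sum_add_distrib, Finset.sum_add_distrib, ← Finset.sum_mul, ← Finset.sum_mul,
          Finset.sum_sub_distrib, hsum]
        simp
      rw [h4] at hup
      rw [div_le_iff₀ hm']
      unfold h2
      nlinarith

/-- (E3), the one-site Gibbs inequality -/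
theorem gibbs_one {q : ℝ} (hq0 : 0 ≤ q) (hq1 : q ≤ 1) (V1 V0 : ℝ) :
    h2 q + q * V1 + (1 - q) * V0 ≤ Real.logb 2 ((2 : ℝ) ^ V1 + (2 : ℝ) ^ V0) := by
  have hA : (0 : ℝ) < (2 : ℝ) ^ V1 := Real.rpow_pos_of_pos (by norm_num) _
  have hB : (0 : ℝ) < (2 : ℝ) ^ V0 := Real.rpow_pos_of_pos (by norm_num) _
  have hlog2 : 0 < Real.log 2 := Real.log_pos (by norm_num)
  set Z := (2 : ℝ) ^ V1 + (2 : ℝ) ^ V0 with hZ
  have hZpos : 0 < Z := by positivity
  -- log x ≤ x - 1 applied twice
  have key : ∀ (p a : ℝ), 0 ≤ p → 0 < a →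
      -(p * Real.log p) + p * Real.log a ≤ p * Real.log Z + (a / Z - p) := by
    intro p a hp ha
    rcases hp.eq_or_lt with h | h
    · subst h
      simp
      positivity
    · have h1 := Real.log_le_sub_one_of_pos (x := a / (Z * p)) (by positivity)
      rw [Real.log_div ha.ne' (by positivity), Real.log_mul hZpos.ne' h.ne'] at h1
      have h2' : p * (Real.log a - (Real.log Z + Real.log p)) ≤ p * (a / (Z * p) - 1) :=
        mul_le_mul_of_nonneg_left h1 hp
      have h3 : p * (a / (Z * p) - 1) = a / Z - p := by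
        field_simp
      rw [h3] at h2'
      nlinarith
  have k1 := key q ((2 : ℝ) ^ V1) hq0 hA
  have k2 := key (1 - q) ((2 : ℝ) ^ V0) (by linarith) hB
  rw [Real.log_rpow (by norm_num)] at k1 k2
  have h5 : (2 : ℝ) ^ V1 / Z + (2 : ℝ) ^ V0 / Z = 1 := by
    rw [← add_div, ← hZ, div_self hZpos.ne']
  unfold h2 Real.logb
  have h6 : -(q * (Real.log q / Real.log 2)) - (1 - q) * (Real.log (1 - q) / Real.log 2)
      + q * V1 + (1 - q) * V0
      = (-(q * Real.log q) + q * (V1 * Real.log 2) + (-((1 - q) * Real.log (1 - q))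
        + (1 - q) * (V0 * Real.log 2))) / Real.log 2 := by
    field_simp
    ring
  rw [h6]
  apply div_le_div_of_nonneg_right _ hlog2.le
  linarith

end SubBis
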