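import Pool.Agent.Lib.SubBis.Core3
import Pool.Agent.Lib.SubBis.Ent

/-!
# The potential `V j z` and the lower bound by the deterministic comparison family
-/

namespace SubBis

open Finset

section potential

variable {a : ℕ}

/-- `log2` of the sum of `2 ^ W z'` over the `z'` agreeing with `z` below `j`. -/
noncomputable def VV (W : (Fin a → Bool) → ℝ) (j : ℕ) (z : Fin a → Bool) : ℝ :=
  Real.logb 2 (∑ z' ∈ univ.filter (fun z' : Fin a → Bool => ∀ i : Fin a, (i : ℕ) < j → z' i = z i),
    (2 : ℝ) ^ W z')

theorem VV_zero (W : (Fin a → Bool) → ℝ) (z : Fin a → Bool) :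
    VV W 0 z = Real.logb 2 (∑ z', (2 : ℝ) ^ W z') := by
  unfold VV
  congr 1
  apply Finset.sum_congr _ (fun _ _ => rfl)
  ext z'; simp

theorem VV_last (W : (Fin a → Bool) → ℝ) (z : Fin a → Bool) : VV W a z = W z := by
  unfold VV
  have h : univ.filter (fun z' : Fin a → Bool => ∀ i : Fin a, (i : ℕ) < a → z' i = z i) = {z} := by
    ext z'
    simp only [mem_filter, mem_univ, true_and, mem_singleton]
    constructor
    · intro h
      funext i
      exact h i i.isLt
    · rintro rfl i _
      rfl
  rw [h, Finset.sum_singleton, Real.logb_rpow (by norm_num) (by norm_num)]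

theorem VV_congr (W : (Fin a → Bool) → ℝ) (j : ℕ) {z z' : Fin a → Bool}
    (h : ∀ i : Fin a, (i : ℕ) < j → z i = z' i) : VV W j z = VV W j z' := by
  unfold VV
  congr 1
  apply Finset.sum_congr _ (fun _ _ => rfl)
  ext y
  simp only [mem_filter, mem_univ, true_and]
  constructor
  · intro hy i hi
    rw [hy i hi, h i hi]
  · intro hy i hi
    rw [hy i hi, h i hi]

theorem VV_sum_pos (W : (Fin a → Bool) → ℝ) (j : ℕ) (z : Fin a → Bool) :
    0 < ∑ z' ∈ univ.filter (fun z' : Fin a → Bool => ∀ i : Fin a, (i : ℕ) < j → z' i = z i),
      (2 : ℝ) ^ W z' := by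
  apply Finset.sum_pos (fun _ _ => Real.rpow_pos_of_pos (by norm_num) _)
  exact ⟨z, by simp⟩

theorem two_rpow_VV (W : (Fin a → Bool) → ℝ) (j : ℕ) (z : Fin a → Bool) :
    (2 : ℝ) ^ VV W j z
      = ∑ z' ∈ univ.filter (fun z' : Fin a → Bool => ∀ i : Fin a, (i : ℕ) < j → z' i = z i),
      (2 : ℝ) ^ W z' := by
  unfold VV
  rw [Real.rpow_logb (by norm_num) (by norm_num) (VV_sum_pos W j z)]

/-- The one-step identity. -/
theorem VV_step (W : (Fin a → Bool) → ℝ) (v : Fin a) (z : Fin a → Bool) :
    VV W v z = Real.logb 2 ((2 : ℝ) ^ VV W (v + 1) (Function.update z v true)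
      + (2 : ℝ) ^ VV W (v + 1) (Function.update z v false)) := by
  rw [two_rpow_VV, two_rpow_VV]
  unfold VV
  congr 1
  rw [← Finset.sum_union]
  · apply Finset.sum_congr _ (fun _ _ => rfl)
    ext y
    simp only [mem_filter, mem_univ, true_and, mem_union]
    constructor
    · intro h
      cases hy : y v
      · right
        intro i hi
        by_cases hiv : i = v
        · subst hiv; simp [hy]
        · rw [Function.update_of_ne hiv]
          apply h
          have : (i : ℕ) ≠ v := fun h => hiv (Fin.ext h)
          omega
      · left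
        intro i hi
        by_cases hiv : i = v
        · subst hiv; simp [hy]
        · rw [Function.update_of_ne hiv]
          apply h
          have : (i : ℕ) ≠ v := fun h => hiv (Fin.ext h)
          omega
    · rintro (h | h) i hi
      · have h1 := h i (by omega)
        have hiv : i ≠ v := by rintro rfl; exact lt_irrefl _ hi
        rwa [Function.update_of_ne hiv] at h1
      · have h1 := h i (by omega)
        have hiv : i ≠ v := by rintro rfl; exact lt_irrefl _ hi
        rwa [Function.update_of_ne hiv] at h1
  · rw [Finset.disjoint_left]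
    intro y hy hy'
    simp only [mem_filter, mem_univ, true_and] at hy hy'
    have h1 := hy v (by omega)
    have h2 := hy' v (by omega)
    rw [Function.update_self] at h1 h2
    rw [h1] at h2
    exact absurd h2 (by simp)

/-- telescoping -/
theorem VV_telescope (W : (Fin a → Bool) → ℝ) (z : Fin a → Bool) :
    W z - Real.logb 2 (∑ z', (2 : ℝ) ^ W z') = ∑ v : Fin a, (VV W (v + 1) z - VV W v z) := by
  rw [Fin.sum_univ_eq_sum_range (fun j => VV W (j + 1) z - VV W j z) a,
    Finset.sum_range_sub (fun j => VV W j z) a, VV_last, VV_zero]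

end potential

section lower

variable {a m : ℕ}

theorem samp_congr (theta : Fin a → (Fin a → Bool) → ℕ)
    (past : ∀ v τ τ', (∀ i, i < v → τ i = τ' i) → theta v τ = theta v τ')
    {U U' : Fin a → Fin m} {v : Fin a} (h : ∀ i, i ≤ v → U i = U' i) :
    samp theta U v = samp theta U' v := by
  induction v using WellFoundedLT.induction with
  | _ v ih =>
    have h1 : theta v (samp theta U) = theta v (samp theta U') := by
      apply past
      intro i hi
      exact ih i hi (fun j hj => h j (hj.trans hi.le))
    have h2 := samp_spec theta past U v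
    have h3 := samp_spec theta past U' v
    rw [h1, h v le_rfl, ← h3] at h2
    exact Bool.eq_iff_iff.mpr h2

/-- the threshold of the comparison family -/
noncomputable def kstar (hm : 0 < m) (c : ℕ) (W : (Fin a → Bool) → ℝ) (v : Fin a)
    (z : Fin a → Bool) : ℕ :=
  Classical.choose (lower_ee (c := c) hm (VV W (v + 1) (Function.update z v true))
    (VV W (v + 1) (Function.update z v false)))

theorem kstar_le (hm : 0 < m) (c : ℕ) (W : (Fin a → Bool) → ℝ) (v : Fin a)
    (z : Fin a → Bool) : kstar hm c W v z ≤ m :=
  (Classical.choose_spec (lower_ee (c := c) hm (VV W (v + 1) (Function.update z v true))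
    (VV W (v + 1) (Function.update z v false)))).1

theorem kstar_spec (hm : 0 < m) (c : ℕ) (W : (Fin a → Bool) → ℝ) (v : Fin a)
    (z : Fin a → Bool) :
    m * (c * VV W v z - 1) - c * Real.logb 2 ((m : ℝ) + 1)
      ≤ ∑ u ∈ range m, ((ee m c u : ℝ) * (if u < kstar hm c W v z then 1 else 0)
        + c * ((if u < kstar hm c W v z then 1 else 0) * VV W (v + 1) (Function.update z v true)
          + (1 - (if u < kstar hm c W v z then 1 else 0))
            * VV W (v + 1) (Function.update z v false))) := by
  rw [VV_step W v z]
  exact (Classical.choose_spec (lower_ee (c := c) hm (VV W (v + 1) (Function.update z v true))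
    (VV W (v + 1) (Function.update z v false)))).2

theorem kstar_past (hm : 0 < m) (c : ℕ) (W : (Fin a → Bool) → ℝ) (v : Fin a)
    (z z' : Fin a → Bool) (h : ∀ i, i < v → z i = z' i) :
    kstar hm c W v z = kstar hm c W v z' := by
  have key : ∀ b, VV W (v + 1) (Function.update z v b) = VV W (v + 1) (Function.update z' v b) := by
    intro b
    apply VV_congr
    intro i hi
    by_cases hiv : i = v
    · subst hiv; simp
    · rw [Function.update_of_ne hiv, Function.update_of_ne hiv]
      apply h
      have : (i : ℕ) ≠ v := fun h => hiv (Fin.ext h)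
      exact Fin.lt_def.mpr (by omega)
  unfold kstar
  simp only [key]

/-- the comparison family -/
noncomputable def zstar (hm : 0 < m) (c : ℕ) (W : (Fin a → Bool) → ℝ) (U : Fin a → Fin m) :
    Fin a → Bool := samp (kstar hm c W) U

theorem zstar_iff (hm : 0 < m) (c : ℕ) (W : (Fin a → Bool) → ℝ) (U : Fin a → Fin m) (v : Fin a) :
    zstar hm c W U v = true ↔ (U v : ℕ) < kstar hm c W v (zstar hm c W U) :=
  samp_spec _ (kstar_past hm c W) U v

theorem zstar_congr (hm : 0 < m) (c : ℕ) (W : (Fin a → Bool) → ℝ) {U U' : Fin a → Fin m}
    {v : Fin a} (h : ∀ i, i ≤ v → U i = U' i) : zstar hm c W U v = zstar hm c W U' v :=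
  samp_congr _ (kstar_past hm c W) h

/-- THE LOWER BOUND. -/
theorem lower_bound (hm : 0 < m) (c : ℕ) (W : (Fin a → Bool) → ℝ) :
    c * Real.logb 2 (∑ z, (2 : ℝ) ^ W z) - a * (1 + c * Real.logb 2 ((m : ℝ) + 1) / m)
      ≤ ev (fun U : Fin a → Fin m => ∑ v, (ee m c (U v) : ℝ) * bit (zstar hm c W U v)
          + c * W (zstar hm c W U)) := by
  have hm' : (0 : ℝ) < m := by exact_mod_cast hm
  set L : ℝ := Real.logb 2 (∑ z, (2 : ℝ) ^ W z) with hL
  -- telescoping
  have h1 : (fun U : Fin a → Fin m => ∑ v, (ee m c (U v) : ℝ) * bit (zstar hm c W U v)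
          + c * W (zstar hm c W U))
      = fun U => (∑ v, ((ee m c (U v) : ℝ) * bit (zstar hm c W U v)
          + c * (VV W (v + 1) (zstar hm c W U) - VV W v (zstar hm c W U)))) + c * L := by
    funext U
    have := VV_telescope W (zstar hm c W U)
    rw [Finset.sum_add_distrib, ← Finset.mul_sum, ← this]
    ring
  rw [h1, ev_add, ev_const hm, ev_sum]
  have h2 : ∀ v : Fin a, -(1 + c * Real.logb 2 ((m : ℝ) + 1) / m)
      ≤ ev (fun U : Fin a → Fin m => (ee m c (U v) : ℝ) * bit (zstar hm c W U v)
          + c * (VV W (v + 1) (zstar hm c W U) - VV W v (zstar hm c W U))) := by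
    intro v
    rw [← ev_cnd hm v]
    have h3 : ev (n := a) (M := m) (fun _ => -(1 + c * Real.logb 2 ((m : ℝ) + 1) / m))
        = -(1 + c * Real.logb 2 ((m : ℝ) + 1) / m) := ev_const hm _
    rw [← h3]
    apply ev_mono
    intro U
    unfold cnd
    rw [le_div_iff₀ hm']
    -- the past
    set z := zstar hm c W U with hz
    have hpast : ∀ x : Fin m, ∀ i, i < v → zstar hm c W (Function.update U v x) i = z i := by
      intro x i hi
      apply zstar_congr
      intro j hj
      have : j ≠ v := (lt_of_le_of_lt hj hi).ne
      simp [this]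
    have hk : ∀ x : Fin m, kstar hm c W v (zstar hm c W (Function.update U v x))
        = kstar hm c W v z := fun x => kstar_past hm c W v _ _ (hpast x)
    have hV0 : ∀ x : Fin m, VV W v (zstar hm c W (Function.update U v x)) = VV W v z := by
      intro x
      apply VV_congr
      intro i hi
      exact hpast x i (Fin.lt_def.mpr hi)
    have hbit : ∀ x : Fin m, bit (zstar hm c W (Function.update U v x) v)
        = if (x : ℕ) < kstar hm c W v z then (1 : ℝ) else 0 := by
      intro x
      have h4 := zstar_iff hm c W (Function.update U v x) v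
      rw [hk, Function.update_self] at h4
      by_cases h5 : (x : ℕ) < kstar hm c W v z
      · rw [h4.mpr h5]; simp [h5]
      · have h6 : zstar hm c W (Function.update U v x) v = false := by
          rw [← Bool.not_eq_true]
          intro h7
          exact h5 (h4.mp h7)
        rw [h6]; simp [h5]
    have hV1 : ∀ x : Fin m, VV W (v + 1) (zstar hm c W (Function.update U v x))
        = (if (x : ℕ) < kstar hm c W v z then (1 : ℝ) else 0)
            * VV W (v + 1) (Function.update z v true)
          + (1 - (if (x : ℕ) < kstar hm c W v z then (1 : ℝ) else 0))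
            * VV W (v + 1) (Function.update z v false) := by
      intro x
      have h4 := zstar_iff hm c W (Function.update U v x) v
      rw [hk, Function.update_self] at h4
      have h8 : VV W (v + 1) (zstar hm c W (Function.update U v x))
          = VV W (v + 1) (Function.update z v (zstar hm c W (Function.update U v x) v)) := by
        apply VV_congr
        intro i hi
        by_cases hiv : i = v
        · subst hiv; simp
        · rw [Function.update_of_ne hiv]
          apply hpast
          have : (i : ℕ) ≠ v := fun h => hiv (Fin.ext h)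
          exact Fin.lt_def.mpr (by omega)
      rw [h8]
      by_cases h5 : (x : ℕ) < kstar hm c W v z
      · rw [h4.mpr h5]; simp [h5]
      · have h6 : zstar hm c W (Function.update U v x) v = false := by
          rw [← Bool.not_eq_true]
          intro h7
          exact h5 (h4.mp h7)
        rw [h6]; simp [h5]
    have h9 := kstar_spec hm c W v z
    have h10 : ∑ x : Fin m, ((ee m c ((Function.update U v x) v) : ℝ)
          * bit (zstar hm c W (Function.update U v x) v)
          + c * (VV W (v + 1) (zstar hm c W (Function.update U v x))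
            - VV W v (zstar hm c W (Function.update U v x))))
        = ∑ x : Fin m, (((ee m c x : ℝ) * (if (x : ℕ) < kstar hm c W v z then 1 else 0)
        + c * ((if (x : ℕ) < kstar hm c W v z then 1 else 0)
            * VV W (v + 1) (Function.update z v true)
          + (1 - (if (x : ℕ) < kstar hm c W v z then 1 else 0))
            * VV W (v + 1) (Function.update z v false))) - c * VV W v z) := by
      apply Finset.sum_congr rfl
      intro x _
      rw [Function.update_self, hbit, hV1, hV0]
      ring
    rw [h10, Finset.sum_sub_distrib,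
      Fin.sum_univ_eq_sum_range (fun x => ((ee m c x : ℝ)
        * (if x < kstar hm c W v z then 1 else 0)
        + c * ((if x < kstar hm c W v z then 1 else 0)
            * VV W (v + 1) (Function.update z v true)
          + (1 - (if x < kstar hm c W v z then 1 else 0))
            * VV W (v + 1) (Function.update z v false)))) m]
    simp only [Finset.sum_const, Finset.card_univ, Fintype.card_fin, nsmul_eq_mul]
    have h11 : -(1 + c * Real.logb 2 ((m : ℝ) + 1) / m) * m
        = m * (c * VV W v z - 1) - c * Real.logb 2 ((m : ℝ) + 1) - m * (c * VV W v z) := by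
      field_simp
      ring
    rw [h11]
    linarith
  have h12 : ∑ _v : Fin a, -(1 + c * Real.logb 2 ((m : ℝ) + 1) / m)
      ≤ ∑ v : Fin a, ev (fun U : Fin a → Fin m => (ee m c (U v) : ℝ) * bit (zstar hm c W U v)
          + c * (VV W (v + 1) (zstar hm c W U) - VV W v (zstar hm c W U))) :=
    Finset.sum_le_sum (fun v _ => h2 v)
  simp only [Finset.sum_const, Finset.card_univ, Fintype.card_fin, nsmul_eq_mul] at h12
  linarith

end lower

end SubBis
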